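import Mathlib
import Pool.Agent.Lib.MP_c5838f_co.SP.Iface

/-!
# MP_c5838f_co / SP: module FEW
-/

set_option autoImplicit false

open Finset

namespace Pool.Agent.Lib.MP_c5838f_co.SP.H64

/-- The tuples in `A` without differences in `T`. -/
def tup {V : Type} [AddCommGroup V] [Fintype V] [DecidableEq V] (T : Finset V) (s : ℕ)
    (A : Finset V) : Finset (Fin s → V) :=
  {x : Fin s → V | (∀ i, x i ∈ A) ∧ ∀ i j, i < j → x i - x j ∉ T}

theorem tup_succ {V : Type} [AddCommGroup V] [Fintype V] [DecidableEq V] (T : Finset V) (s : ℕ)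
    (A : Finset V) :
    #(tup T (s + 1) A) ≤ ∑ a ∈ A, #(tup T s (A.filter (fun y => a - y ∉ T))) := by
  classical
  have hsub : tup T (s + 1) A ⊆ A.biUnion (fun a =>
      (tup T s (A.filter (fun y => a - y ∉ T))).image (fun x : Fin s → V =>
        (Fin.cons a x : Fin (s + 1) → V))) := by
    intro x hx
    unfold tup at hx
    rw [mem_filter] at hx
    obtain ⟨-, hx1, hx2⟩ := hx
    rw [mem_biUnion]
    refine ⟨x 0, hx1 0, ?_⟩
    rw [mem_image]
    refine ⟨Fin.tail x, ?_, Fin.cons_self_tail x⟩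
    unfold tup
    rw [mem_filter]
    refine ⟨mem_univ _, fun i => ?_, fun i j hij => ?_⟩
    · rw [mem_filter]
      exact ⟨hx1 _, hx2 0 i.succ (Fin.succ_pos i)⟩
    · exact hx2 i.succ j.succ (Fin.succ_lt_succ_iff.2 hij)
  exact (card_le_card hsub).trans (card_biUnion_le.trans (sum_le_sum fun a _ => card_image_le))

theorem few : FewStatement := by
  classical
  intro V _ _ _ T θ g hθ0 hθ1 hg hU s
  have hg' : (0 : ℝ) < (g : ℝ) := by exact_mod_cast hg
  have hinv : 1 ≤ θ⁻¹ := (one_le_inv₀ hθ0).2 hθ1.le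
  have hinv0 : 0 < θ⁻¹ := inv_pos.2 hθ0
  set v : ℝ := (Fintype.card V : ℝ) with hv
  have hv0 : 0 ≤ v := Nat.cast_nonneg _
  suffices H : ∀ A : Finset V, (#(tup T s A) : ℝ) ≤
      (2 * θ * v) ^ s * θ⁻¹ ^ ((#A : ℝ) / (g : ℝ)) by
    intro A
    exact H A
  induction s with
  | zero =>
    intro A
    have h1 : #(tup T 0 A) ≤ 1 := by
      rw [card_le_one]
      intro x _ y _
      exact Subsingleton.elim x y
    have h2 : (1 : ℝ) ≤ θ⁻¹ ^ ((#A : ℝ) / (g : ℝ)) :=
      Real.one_le_rpow hinv (by positivity)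
    have h3 : (#(tup T 0 A) : ℝ) ≤ 1 := by exact_mod_cast h1
    rw [pow_zero, one_mul]
    exact h3.trans h2
  | succ s ih =>
    intro A
    set c : ℝ := (2 * θ * v) ^ s * θ⁻¹ ^ ((#A : ℝ) / (g : ℝ)) with hc
    have hc0 : 0 ≤ c := by positivity
    -- low degree vertices
    set L := A.filter (fun a => #{y ∈ A | a - y ∈ T} < g) with hL
    have hLcard : (#L : ℝ) ≤ θ * v := by
      by_contra hcon
      push Not at hcon
      have hne : L.Nonempty := by
        rw [← card_pos]
        have : (0 : ℝ) < (#L : ℝ) := lt_of_le_of_lt (by positivity) hcon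
        exact_mod_cast this
      obtain ⟨x, hx, hgx⟩ := hU L hne hcon.le
      have h1 := (mem_filter.1 hx).2
      have h2 : #{y ∈ L | x - y ∈ T} ≤ #{y ∈ A | x - y ∈ T} :=
        card_le_card (filter_subset_filter _ (filter_subset _ _))
      omega
    have hAcard : (#A : ℝ) ≤ v := by
      rw [hv]
      exact_mod_cast card_le_univ A
    have hmono : ∀ a ∈ A, (#(tup T s (A.filter (fun y => a - y ∉ T))) : ℝ) ≤
        (if a ∈ L then c else θ * c) := by
      intro a ha
      refine (ih (A.filter (fun y => a - y ∉ T))).trans ?_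
      have hcard : #(A.filter (fun y => a - y ∉ T)) + #{y ∈ A | a - y ∈ T} = #A := by
        rw [add_comm]
        exact card_filter_add_card_filter_not _
      split_ifs with haL
      · rw [hc]
        gcongr
        exact filter_subset _ _
      · have hge : g ≤ #{y ∈ A | a - y ∈ T} := by
          by_contra hlt
          push Not at hlt
          exact haL (mem_filter.2 ⟨ha, hlt⟩)
        have h1 : (#(A.filter (fun y => a - y ∉ T)) : ℝ) ≤ (#A : ℝ) - g := by
          have h2 : #(A.filter (fun y => a - y ∉ T)) + g ≤ #A := by omega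
          have h3 : (#(A.filter (fun y => a - y ∉ T)) : ℝ) + g ≤ (#A : ℝ) := by exact_mod_cast h2
          linarith
        have h4 : (#(A.filter (fun y => a - y ∉ T)) : ℝ) / (g : ℝ) ≤ (#A : ℝ) / g - 1 := by
          rw [div_le_iff₀ hg', sub_mul, div_mul_cancel₀ _ hg'.ne', one_mul]
          exact h1
        calc (2 * θ * v) ^ s * θ⁻¹ ^ ((#(A.filter (fun y => a - y ∉ T)) : ℝ) / (g : ℝ))
            ≤ (2 * θ * v) ^ s * θ⁻¹ ^ ((#A : ℝ) / g - 1) := by
              gcongr
          _ = θ * c := by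
              rw [hc, Real.rpow_sub_one hinv0.ne', div_inv_eq_mul]
              ring
    have hsum : (#(tup T (s + 1) A) : ℝ) ≤ ∑ a ∈ A, (if a ∈ L then c else θ * c) := by
      have h1 := tup_succ T s A
      have h2 : (#(tup T (s + 1) A) : ℝ) ≤
          ∑ a ∈ A, (#(tup T s (A.filter (fun y => a - y ∉ T))) : ℝ) := by exact_mod_cast h1
      exact h2.trans (sum_le_sum hmono)
    have hsplit : ∑ a ∈ A, (if a ∈ L then c else θ * c) ≤ #L * c + #A * (θ * c) := by
      have h1 : ∀ a ∈ A, (if a ∈ L then c else θ * c) ≤ (if a ∈ L then c else 0) + θ * c := by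
        intro a _
        have : 0 ≤ θ * c := by positivity
        split_ifs <;> linarith
      refine (sum_le_sum h1).trans ?_
      rw [sum_add_distrib, sum_const, nsmul_eq_mul, ← sum_filter, sum_const, nsmul_eq_mul]
      have h2 : #(A.filter (fun a => a ∈ L)) ≤ #L :=
        card_le_card (fun a ha => (mem_filter.1 ha).2)
      have h3 : (#(A.filter (fun a => a ∈ L)) : ℝ) ≤ #L := by exact_mod_cast h2
      gcongr
    calc (#(tup T (s + 1) A) : ℝ) ≤ #L * c + #A * (θ * c) := hsum.trans hsplit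
      _ ≤ (θ * v) * c + v * (θ * c) := by gcongr
      _ = (2 * θ * v) ^ (s + 1) * θ⁻¹ ^ ((#A : ℝ) / (g : ℝ)) := by
          rw [hc, pow_succ]
          ring

end Pool.Agent.Lib.MP_c5838f_co.SP.H64
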